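import Pool.Agent.H27.Rog.Main
import Pool.Agent.H27.Rog.Events3
import Pool.Agent.H27.Rog.Counting
import Pool.Agent.H27.Rog.Density

/-!
# The uniform local counting bound behind the packing theorem

This file repeats the last step of `Pool.Agent.H27.Rog.rogerian` (by helper61) and keeps the
counting bound in parallelograms instead of passing to the density with respect to squares.
-/

set_option autoImplicit false
open MeasureTheory
open Pool.Agent.H27.Rog

namespace Pool.Agent.H99.RogIns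

/-- the supremum of the densities of the lattice packings of `D` -/
noncomputable def latB (D : Set (ℝ × ℝ)) : ENNReal :=
  ⨆ (u : ℝ × ℝ) (w : ℝ × ℝ) (_ : u.1 * w.2 - u.2 * w.1 ≠ 0 ∧
          ∀ a b c d : ℤ, (a, b) ≠ (c, d) →
            Disjoint
              (interior ((fun x => x + ((a : ℝ) • u + (b : ℝ) • w)) '' D))
              (interior ((fun x => x + ((c : ℝ) • u + (d : ℝ) • w)) '' D))),
        volume D / ENNReal.ofReal |u.1 * w.2 - u.2 * w.1|

theorem local_bound (K : Set (ℝ × ℝ)) (v : ℝ × ℝ) (hconv : Convex ℝ K) (hcomp : IsCompact K)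
    (hint : (interior K).Nonempty) (hv : (K ∩ ((fun x => x + v) '' K)).Nonempty)
    (hBtop : latB (K ∪ ((fun x => x + v) '' K)) ≠ ⊤) :
    ∃ (e w : ℝ × ℝ) (Δ c : ℝ), e.1 * w.2 - e.2 * w.1 ≠ 0 ∧ 0 < Δ ∧ 0 ≤ c ∧
      volume (K ∪ ((fun x => x + v) '' K)) / ENNReal.ofReal (Δ * |e.1 * w.2 - e.2 * w.1|) =
        latB (K ∪ ((fun x => x + v) '' K)) ∧
      ∀ T : Set (ℝ × ℝ), (∀ s ∈ T, ∀ t ∈ T, s ≠ t →
        Disjoint (interior ((fun x => x + s) '' (K ∪ ((fun x => x + v) '' K))))
          (interior ((fun x => x + t) '' (K ∪ ((fun x => x + v) '' K))))) →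
        ∀ (N : ℝ), 0 < N → ∀ z : ℝ × ℝ, ∀ T' : Finset (ℝ × ℝ),
          (∀ t ∈ T', t ∈ T ∧ ∃ x ∈ Set.Icc (0 : ℝ) N, ∃ y ∈ Set.Icc (0 : ℝ) N,
            t = z + x • e + y • w) →
          (T'.card : ℝ) * Δ ≤ (N + c) * (N + 1) := by
  obtain ⟨S, e, w, hdet, ⟨Fm₀, hFm₀⟩, hgeo⟩ := geometry K v hconv hcomp hint hv
  set D : Set (ℝ × ℝ) := K ∪ ((fun x => x + v) '' K) with hD
  set B : ENNReal := latB D with hB
  have hDc : IsCompact D := hcomp.union (hcomp.image (by fun_prop))
  have hDint : (interior D).Nonempty := hint.mono (interior_mono Set.subset_union_left)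
  have hVpos : 0 < volume D := (isOpen_interior.measure_pos volume hDint).trans_le
    (measure_mono interior_subset)
  have hVtop : volume D ≠ ⊤ := hDc.measure_lt_top.ne
  -- admissible lattices give lower bounds for `B`
  have hlat : ∀ P₁ h₁ P₂ h₂ : ℝ, 0 < P₁ * h₂ - h₁ * P₂ →
      (∀ i j : ℤ, (i, j) ≠ (0, 0) → Out S (i * P₁ + j * P₂) (i * h₁ + j * h₂)) →
      volume D / ENNReal.ofReal ((P₁ * h₂ - h₁ * P₂) * |e.1 * w.2 - e.2 * w.1|) ≤ B := by
    intro P₁ h₁ P₂ h₂ hpos hout
    have hcross : (P₁ • e + h₁ • w).1 * (P₂ • e + h₂ • w).2 - (P₁ • e + h₁ • w).2 * (P₂ • e + h₂ • w).1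
        = (P₁ * h₂ - h₁ * P₂) * (e.1 * w.2 - e.2 * w.1) := by
      simp only [Prod.fst_add, Prod.snd_add, Prod.smul_fst, Prod.smul_snd, smul_eq_mul]; ring
    have hadm : (P₁ • e + h₁ • w).1 * (P₂ • e + h₂ • w).2 - (P₁ • e + h₁ • w).2 * (P₂ • e + h₂ • w).1 ≠ 0 ∧
          ∀ a b c d : ℤ, (a, b) ≠ (c, d) →
            Disjoint
              (interior ((fun x => x + ((a : ℝ) • (P₁ • e + h₁ • w) + (b : ℝ) • (P₂ • e + h₂ • w))) '' D))
              (interior ((fun x => x + ((c : ℝ) • (P₁ • e + h₁ • w) + (d : ℝ) • (P₂ • e + h₂ • w))) '' D)) := by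
      refine ⟨by rw [hcross]; exact mul_ne_zero hpos.ne' hdet, ?_⟩
      intro a b c d hne
      have hne' : (c - a, d - b) ≠ ((0 : ℤ), (0 : ℤ)) := by
        intro h
        apply hne
        have h1 := congrArg Prod.fst h
        have h2 := congrArg Prod.snd h
        simp only at h1 h2
        exact Prod.ext (by simp only; omega) (by simp only; omega)
      have ho := hout (c - a) (d - b) hne'
      refine (hgeo _ _ (((c - a : ℤ) : ℝ) * P₁ + ((d - b : ℤ) : ℝ) * P₂)
        (((c - a : ℤ) : ℝ) * h₁ + ((d - b : ℤ) : ℝ) * h₂) ?_).2 ho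
      push_cast
      simp only [smul_add, smul_smul, sub_mul, sub_smul, add_smul]
      abel
    have h1 : volume D / ENNReal.ofReal |(P₁ • e + h₁ • w).1 * (P₂ • e + h₂ • w).2 -
        (P₁ • e + h₁ • w).2 * (P₂ • e + h₂ • w).1| ≤ B := by
      rw [hB]
      unfold latB
      exact le_iSup_of_le (P₁ • e + h₁ • w) (le_iSup_of_le (P₂ • e + h₂ • w)
        (le_iSup_of_le hadm le_rfl))
    rw [hcross, abs_mul, abs_of_pos hpos] at h1
    exact h1
  have hdpos : 0 < |e.1 * w.2 - e.2 * w.1| := abs_pos.2 hdet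
  -- positivity of `B`
  have hF0 : 0 < S.F 0 := S.F_pos (by norm_num)
  have hBpos : B ≠ 0 := by
    have h1 := lattice_far S 0 1 (S.F (-1)) (S.F 0) le_rfl (by norm_num) (by norm_num) le_rfl
      (by norm_num) le_rfl le_rfl (by rw [zero_sub]; linarith)
    have h2 := hlat (S.F (-1)) (-1) (S.F 0) 0 (by linarith) (by
      intro i j hij
      have := h1.2 i j hij
      have e1 : (i : ℝ) * -1 + j * 0 = -(i * 1) + j * 0 := by ring
      rw [e1]; exact this)
    intro h0
    rw [h0, nonpos_iff_eq_zero, ENNReal.div_eq_zero_iff] at h2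
    rcases h2 with h2 | h2
    · exact hVpos.ne' h2
    · exact ENNReal.ofReal_ne_top h2
  set b : ℝ := B.toReal with hb
  have hbpos : 0 < b := ENNReal.toReal_pos hBpos hBtop
  set V : ℝ := (volume D).toReal with hV
  have hVpos' : 0 < V := ENNReal.toReal_pos hVpos.ne' hVtop
  set Δ : ℝ := V / (b * |e.1 * w.2 - e.2 * w.1|) with hΔ
  have hΔpos : 0 < Δ := by positivity
  have hcrit0 : ∀ P₁ h₁ P₂ h₂ : ℝ, 0 < P₁ * h₂ - h₁ * P₂ →
      (∀ i j : ℤ, (i, j) ≠ (0, 0) → Out S (i * P₁ + j * P₂) (i * h₁ + j * h₂)) →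
      Δ ≤ P₁ * h₂ - h₁ * P₂ := by
    intro P₁ h₁ P₂ h₂ hpos hout
    have h1 := hlat P₁ h₁ P₂ h₂ hpos hout
    have h2 := ENNReal.toReal_mono hBtop h1
    rw [ENNReal.toReal_div, ENNReal.toReal_ofReal (by positivity)] at h2
    rw [hΔ, div_le_iff₀ (by positivity)]
    rw [div_le_iff₀ (by positivity)] at h2
    calc V ≤ b * ((P₁ * h₂ - h₁ * P₂) * |e.1 * w.2 - e.2 * w.1|) := h2
      _ = (P₁ * h₂ - h₁ * P₂) * (b * |e.1 * w.2 - e.2 * w.1|) := by ring
  have hcrit : Crit S Δ := by
    refine ⟨hΔpos, ?_, ?_, ?_⟩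
    · intro q q' P₁ P₂ h1 h2 h3 h4 h5 h6 h7 h8
      obtain ⟨g1, g2⟩ := lattice_far S q q' P₁ P₂ h1 h2 h3 h4 h5 h6 h7 h8
      have := hcrit0 P₁ (-q') P₂ q (by linarith) (by
        intro i j hij
        have e1 : (i : ℝ) * (-q') + j * q = -(i * q') + j * q := by ring
        rw [e1]; exact g2 i j hij)
      linarith
    · intro q q' p P₂ h1 h2 h3 h4 h5 h6 h7 h8
      obtain ⟨g1, g2⟩ := lattice_near S q q' p P₂ h1 h2 h3 h4 h5 h6 h7 h8
      have := hcrit0 p (-q') P₂ q (by linarith) (by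
        intro i j hij
        have e1 : (i : ℝ) * (-q') + j * q = -(i * q') + j * q := by ring
        rw [e1]; exact g2 i j hij)
      linarith
    · intro q q' P₁ p h1 h2 h3 h4 h5 h6 h7 h8
      obtain ⟨g1, g2⟩ := lattice_near S.mirror q' q p P₁ h3 h4 h1 h2
        (by simp only [Shape.mirror, neg_neg]; exact h5)
        (by simp only [Shape.mirror]; exact h6)
        (by simp only [Shape.mirror, Shape.F] at h7 ⊢; exact h7)
        (by
          simp only [Shape.mirror, Shape.F] at h8 ⊢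
          rw [show -(q' - q) = q - q' by ring]; linarith)
      have := hcrit0 P₁ (-q') p q (by linarith) (by
        intro i j hij
        have hij' : (j, i) ≠ ((0 : ℤ), (0 : ℤ)) := by
          intro h
          apply hij
          have k1 := congrArg Prod.fst h
          have k2 := congrArg Prod.snd h
          exact Prod.ext k2 k1
        have g3 := out_mirror (g2 j i hij')
        have e1 : (i : ℝ) * P₁ + j * p = j * p + i * P₁ := by ring
        have e2 : (i : ℝ) * (-q') + j * q = -(-(j * q) + i * q') := by ring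
        rw [e1, e2]; exact g3)
      linarith
  have hev := eventIneq S Δ hcrit
  set Fm : ℝ := max Fm₀ 0 with hFm
  have hFmb : ∀ y ∈ Set.Icc (-1 : ℝ) 1, S.F y ≤ Fm := fun y hy => (hFm₀ y hy).trans (le_max_left _ _)
  have hFm0 : 0 ≤ Fm := le_max_right _ _
  refine ⟨e, w, Δ, 2 * Fm, hdet, hΔpos, by linarith, ?_, ?_⟩
  · have e1 : Δ * |e.1 * w.2 - e.2 * w.1| = V / b := by
      rw [hΔ]; field_simp
    rw [e1, ← ENNReal.ofReal_toReal hVtop, ← hV, ← ENNReal.ofReal_div_of_pos (by positivity)]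
    rw [← ENNReal.ofReal_toReal hBtop, ← hb]
    congr 1
    field_simp
  · intro T hT
    intro N hN z T' hT'
    -- coordinates
    set co : ℝ × ℝ → ℝ × ℝ := fun t =>
      (((t - z).1 * w.2 - (t - z).2 * w.1) / (e.1 * w.2 - e.2 * w.1),
        (e.1 * (t - z).2 - e.2 * (t - z).1) / (e.1 * w.2 - e.2 * w.1)) with hco
    have hcoval : ∀ x y : ℝ, co (z + x • e + y • w) = (x, y) := by
      intro x y
      have e1 : z + x • e + y • w - z = x • e + y • w := by abel
      simp only [hco, e1, Prod.fst_add, Prod.snd_add, Prod.smul_fst, Prod.smul_snd, smul_eq_mul]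
      refine Prod.ext ?_ ?_
      · simp only
        rw [div_eq_iff hdet]; ring
      · simp only
        rw [div_eq_iff hdet]; ring
    have hback : ∀ t : ℝ × ℝ, t ∈ T' → t = z + (co t).1 • e + (co t).2 • w := by
      intro t ht
      obtain ⟨_, x, _, y, _, rfl⟩ := hT' t ht
      rw [hcoval]
    have hinj : Set.InjOn co (T' : Set (ℝ × ℝ)) := by
      intro s hs t ht hst
      rw [hback s hs, hback t ht, hst]
    have key := counting S Δ Fm hev hFmb (-Fm) (N + Fm) 0 N (by linarith) hN.le (T'.image co) (by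
      intro t ht
      obtain ⟨s, hs, rfl⟩ := Finset.mem_image.mp ht
      obtain ⟨_, x, hx, y, hy, rfl⟩ := hT' s hs
      rw [hcoval]
      exact ⟨by simp only; linarith [hx.1], by simp only; linarith [hx.2], hy.1, hy.2⟩) (by
      intro s' hs' t' ht' hne hdy
      obtain ⟨s, hs, rfl⟩ := Finset.mem_image.mp hs'
      obtain ⟨t, ht, rfl⟩ := Finset.mem_image.mp ht'
      have hst : s ≠ t := fun h => hne (by rw [h])
      have hdis := hT s (hT' s hs).1 t (hT' t ht).1 hst
      have hsub : t - s = ((co t).1 - (co s).1) • e + ((co t).2 - (co s).2) • w := by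
        conv_lhs => rw [hback s hs, hback t ht]
        simp only [sub_smul]
        abel
      have hout := (hgeo s t _ _ hsub).1 hdis
      rcases out_sep hdy hout with h | h
      · left
        exact ⟨by linarith [h.1], h.2⟩
      · right
        refine ⟨by linarith [h.1], ?_⟩
        have h2 := h.2
        rwa [neg_sub, neg_sub] at h2)
    rw [Finset.card_image_of_injOn hinj] at key
    calc (T'.card : ℝ) * Δ ≤ _ := key
      _ = (N + 2 * Fm) * (N + 1) := by ring

end Pool.Agent.H99.RogIns
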