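import Pool.Agent.H99.RogIns.Plane

/-!
# The density of a lattice packing with respect to discs
-/

set_option autoImplicit false
open MeasureTheory
open Pool.Agent.H27.Rog

namespace Pool.Agent.H99.RogIns

theorem exists_lattice (u w : EuclideanSpace ℝ (Fin 2))
    (hdet : (phi u).1 * (phi w).2 - (phi u).2 * (phi w).1 ≠ 0) :
    ∃ Λ : AddSubgroup (EuclideanSpace ℝ (Fin 2)), DiscreteTopology Λ ∧
      Submodule.span ℝ (Λ : Set (EuclideanSpace ℝ (Fin 2))) = ⊤ ∧
      (∀ x, x ∈ Λ ↔ ∃ a b : ℤ, x = (a : ℝ) • u + (b : ℝ) • w) ∧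
      ∀ p : EuclideanSpace ℝ (Fin 2), ∃ α β : ℝ, p = α • u + β • w := by
  have hli : LinearIndependent ℝ ![u, w] := by
    rw [LinearIndependent.pair_iff]
    intro s t h
    have h1 := congrArg phi h
    rw [map_add, map_smul, map_smul, map_zero] at h1
    have h2 := congrArg Prod.fst h1
    have h3 := congrArg Prod.snd h1
    simp only [Prod.fst_add, Prod.snd_add, Prod.smul_fst, Prod.smul_snd, smul_eq_mul, Prod.fst_zero,
      Prod.snd_zero] at h2 h3
    have h4 : s * ((phi u).1 * (phi w).2 - (phi u).2 * (phi w).1) = 0 := by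
      linear_combination (phi w).2 * h2 - (phi w).1 * h3
    have h5 : t * ((phi u).1 * (phi w).2 - (phi u).2 * (phi w).1) = 0 := by
      linear_combination (phi u).1 * h3 - (phi u).2 * h2
    exact ⟨(mul_eq_zero.1 h4).resolve_right hdet, (mul_eq_zero.1 h5).resolve_right hdet⟩
  set b := basisOfLinearIndependentOfCardEqFinrank hli (by simp) with hb
  have hb0 : b 0 = u := by rw [hb]; simp
  have hb1 : b 1 = w := by rw [hb]; simp
  have hrange : Set.range b = {u, w} := by
    rw [hb]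
    simp only [coe_basisOfLinearIndependentOfCardEqFinrank, Matrix.range_cons, Matrix.range_empty,
      Set.union_empty, Set.singleton_union]
  refine ⟨(Submodule.span ℤ (Set.range b)).toAddSubgroup, inferInstance, ?_, ?_, ?_⟩
  · exact (inferInstance : IsZLattice ℝ (Submodule.span ℤ (Set.range b))).span_top
  · intro x
    rw [Submodule.mem_toAddSubgroup, hrange, Submodule.mem_span_pair]
    constructor
    · rintro ⟨m, n, h⟩
      refine ⟨m, n, ?_⟩
      rw [← h, Int.cast_smul_eq_zsmul, Int.cast_smul_eq_zsmul]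
    · rintro ⟨m, n, h⟩
      refine ⟨m, n, ?_⟩
      rw [h, Int.cast_smul_eq_zsmul, Int.cast_smul_eq_zsmul]
  · intro p
    refine ⟨b.repr p 0, b.repr p 1, ?_⟩
    conv_lhs => rw [← b.sum_repr p]
    rw [Fin.sum_univ_two, hb0, hb1]

theorem lower (D : Set (EuclideanSpace ℝ (Fin 2))) (hD : IsCompact D)
    (u w : EuclideanSpace ℝ (Fin 2))
    (hdet : (phi u).1 * (phi w).2 - (phi u).2 * (phi w).1 ≠ 0)
    (Λ : AddSubgroup (EuclideanSpace ℝ (Fin 2)))
    (hΛ : ∀ x, x ∈ Λ ↔ ∃ a b : ℤ, x = (a : ℝ) • u + (b : ℝ) • w)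
    (hspan : ∀ p : EuclideanSpace ℝ (Fin 2), ∃ α β : ℝ, p = α • u + β • w) :
    volume D / ENNReal.ofReal |(phi u).1 * (phi w).2 - (phi u).2 * (phi w).1| ≤
    Filter.limsup (fun r : ℝ =>
      (∑' i : {i : Λ // (fun x => x + (i : EuclideanSpace ℝ (Fin 2))) '' D ⊆
          Metric.closedBall 0 r},
        volume ((fun x => x + ((i : Λ) : EuclideanSpace ℝ (Fin 2))) '' D)) /
        ENNReal.ofReal (Real.pi * r ^ 2)) Filter.atTop := by
  classical
  set δ := |(phi u).1 * (phi w).2 - (phi u).2 * (phi w).1| with hδ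
  have hδ0 : 0 < δ := abs_pos.2 hdet
  have hpi := Real.pi_pos
  set q : ENNReal := volume D / ENNReal.ofReal δ with hq
  have hδne : ENNReal.ofReal δ ≠ 0 := by simpa using hδ0
  have hqtop : q ≠ ⊤ := ENNReal.div_ne_top hD.measure_lt_top.ne hδne
  have hqmul : volume D = ENNReal.ofReal δ * q := by
    rw [hq, ENNReal.mul_div_cancel hδne ENNReal.ofReal_ne_top]
  obtain ⟨ρ', hρ'⟩ := hD.isBounded.exists_norm_le
  set ρ := max ρ' 0 with hρdef
  have hρ0 : 0 ≤ ρ := le_max_right _ _
  have hρ : ∀ x ∈ D, ‖x‖ ≤ ρ := fun x hx => (hρ' x hx).trans (le_max_left _ _)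
  set C := ρ + ‖u‖ + ‖w‖ with hC
  have hC0 : 0 ≤ C := by rw [hC]; positivity
  have hcount : Countable Λ := by
    have : Function.Surjective (fun p : ℤ × ℤ =>
        (⟨(p.1 : ℝ) • u + (p.2 : ℝ) • w, (hΛ _).2 ⟨p.1, p.2, rfl⟩⟩ : Λ)) := by
      rintro ⟨x, hx⟩
      obtain ⟨a, b, rfl⟩ := (hΛ x).1 hx
      exact ⟨(a, b), rfl⟩
    exact this.countable
  have hbound : ∀ r : ℝ, C < r →
      q * ENNReal.ofReal ((r - C) ^ 2 / r ^ 2) ≤
      (∑' i : {i : Λ // (fun x => x + (i : EuclideanSpace ℝ (Fin 2))) '' D ⊆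
          Metric.closedBall 0 r},
        volume ((fun x => x + ((i : Λ) : EuclideanSpace ℝ (Fin 2))) '' D)) /
        ENNReal.ofReal (Real.pi * r ^ 2) := by
    intro r hr
    have hr0 : 0 < r := lt_of_le_of_lt hC0 hr
    have hcover : phi '' Metric.closedBall 0 (r - C) ⊆
        ⋃ i : {i : Λ // (fun x => x + (i : EuclideanSpace ℝ (Fin 2))) '' D ⊆
          Metric.closedBall 0 r}, St (-(phi u)) (-(phi w)) 1 (phi ((i : Λ) : EuclideanSpace ℝ (Fin 2))) := by
      rintro _ ⟨p, hp, rfl⟩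
      obtain ⟨α, β, hpe⟩ := hspan p
      rw [mem_closedBall_zero_iff] at hp
      have hlam : ((⌊α⌋ : ℤ) : ℝ) • u + ((⌊β⌋ : ℤ) : ℝ) • w ∈ Λ := (hΛ _).2 ⟨_, _, rfl⟩
      have hdiff : ((⌊α⌋ : ℤ) : ℝ) • u + ((⌊β⌋ : ℤ) : ℝ) • w = p - Int.fract α • u - Int.fract β • w := by
        rw [hpe]
        have e1 : α = ⌊α⌋ + Int.fract α := (Int.floor_add_fract α).symm
        have e2 : β = ⌊β⌋ + Int.fract β := (Int.floor_add_fract β).symm
        conv_rhs => rw [e1, e2]
        simp only [Int.fract_fract, Int.fract_intCast_add]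
        rw [add_smul, add_smul]
        abel
      have hn1 : ‖Int.fract α • u‖ ≤ ‖u‖ := by
        rw [norm_smul, Real.norm_of_nonneg (Int.fract_nonneg α)]
        exact mul_le_of_le_one_left (norm_nonneg _) (Int.fract_lt_one α).le
      have hn2 : ‖Int.fract β • w‖ ≤ ‖w‖ := by
        rw [norm_smul, Real.norm_of_nonneg (Int.fract_nonneg β)]
        exact mul_le_of_le_one_left (norm_nonneg _) (Int.fract_lt_one β).le
      have hn : ‖((⌊α⌋ : ℤ) : ℝ) • u + ((⌊β⌋ : ℤ) : ℝ) • w‖ ≤ r - ρ := by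
        rw [hdiff]
        have h1 := norm_sub_le (p - Int.fract α • u) (Int.fract β • w)
        have h2 := norm_sub_le p (Int.fract α • u)
        linarith
      rw [Set.mem_iUnion]
      refine ⟨⟨⟨_, hlam⟩, ?_⟩, ?_⟩
      · rintro _ ⟨x, hx, rfl⟩
        rw [mem_closedBall_zero_iff]
        have h1 := norm_add_le x (((⌊α⌋ : ℤ) : ℝ) • u + ((⌊β⌋ : ℤ) : ℝ) • w)
        have h2 := hρ x hx
        simp only
        linarith
      · rw [mem_St]
        refine ⟨Int.fract α, ⟨Int.fract_nonneg α, (Int.fract_lt_one α).le⟩, Int.fract β,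
          ⟨Int.fract_nonneg β, (Int.fract_lt_one β).le⟩, ?_⟩
        simp only
        rw [hdiff, map_sub, map_sub, map_smul, map_smul, smul_neg, smul_neg]
        abel
    have hvolSt : ∀ z : ℝ × ℝ, volume (St (-(phi u)) (-(phi w)) 1 z) = ENNReal.ofReal δ := by
      intro z
      rw [volume_St, ENNReal.ofReal_one, mul_one, mul_one, hδ]
      congr 2
      simp only [Prod.fst_neg, Prod.snd_neg]
      ring
    have hvol : ∀ q : EuclideanSpace ℝ (Fin 2), volume ((fun x => x + q) '' D) = volume D := by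
      intro q
      rw [Set.image_add_right, measure_preimage_add_right]
    have h1 : ENNReal.ofReal (Real.pi * (r - C) ^ 2) ≤
        ∑' _ : {i : Λ // (fun x => x + (i : EuclideanSpace ℝ (Fin 2))) '' D ⊆
          Metric.closedBall 0 r}, ENNReal.ofReal δ := by
      rw [← volume_disc (r - C) (by linarith), ← vol_phi]
      refine (measure_mono hcover).trans ((measure_iUnion_le _).trans ?_)
      simp only [hvolSt]
      exact le_rfl
    have h2 : (∑' i : {i : Λ // (fun x => x + (i : EuclideanSpace ℝ (Fin 2))) '' D ⊆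
          Metric.closedBall 0 r},
        volume ((fun x => x + ((i : Λ) : EuclideanSpace ℝ (Fin 2))) '' D)) =
        (∑' _ : {i : Λ // (fun x => x + (i : EuclideanSpace ℝ (Fin 2))) '' D ⊆
          Metric.closedBall 0 r}, ENNReal.ofReal δ) * q := by
      rw [← ENNReal.tsum_mul_right]
      refine tsum_congr fun i => ?_
      rw [hvol, hqmul]
    rw [h2]
    have h3 : q * ENNReal.ofReal ((r - C) ^ 2 / r ^ 2) =
        ENNReal.ofReal (Real.pi * (r - C) ^ 2) * q / ENNReal.ofReal (Real.pi * r ^ 2) := by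
      have e1 : (r - C) ^ 2 / r ^ 2 = (Real.pi * (r - C) ^ 2) / (Real.pi * r ^ 2) := by
        field_simp
      rw [e1, ENNReal.ofReal_div_of_pos (by positivity), mul_comm (ENNReal.ofReal _) q,
        mul_div_assoc]
    rw [h3]
    exact ENNReal.div_le_div_right (mul_le_mul_left h1 q) _
  have hlim : Filter.Tendsto (fun r : ℝ => q * ENNReal.ofReal ((r - C) ^ 2 / r ^ 2)) Filter.atTop
      (nhds (q * ENNReal.ofReal 1)) := by
    refine ENNReal.Tendsto.const_mul (ENNReal.tendsto_ofReal ?_) (Or.inr hqtop)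
    have h1 : Filter.Tendsto (fun r : ℝ => (1 - C * r⁻¹) ^ 2) Filter.atTop
        (nhds ((1 - C * 0) ^ 2)) :=
      (tendsto_const_nhds.sub (tendsto_const_nhds.mul tendsto_inv_atTop_zero)).pow 2
    have h2 : ((1 : ℝ) - C * 0) ^ 2 = 1 := by ring
    rw [h2] at h1
    refine h1.congr' ?_
    filter_upwards [Filter.eventually_gt_atTop (0 : ℝ)] with r hr
    field_simp
  rw [ENNReal.ofReal_one, mul_one] at hlim
  rw [← hlim.limsup_eq]
  refine Filter.limsup_le_limsup ?_
  filter_upwards [Filter.eventually_gt_atTop C] with r hr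
  exact hbound r hr

end Pool.Agent.H99.RogIns
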