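import Pool.Agent.H99.RogIns.Local

/-!
# The Euclidean plane and the coordinate plane
-/

set_option autoImplicit false
open MeasureTheory
open Pool.Agent.H27.Rog

namespace Pool.Agent.H99.RogIns

/-- coordinates of the Euclidean plane -/
noncomputable def phi : EuclideanSpace ℝ (Fin 2) ≃L[ℝ] ℝ × ℝ :=
  (PiLp.continuousLinearEquiv 2 ℝ (fun _ : Fin 2 => ℝ)).trans
    (ContinuousLinearEquiv.finTwoArrow ℝ ℝ)

lemma phi_mp : MeasurePreserving (phi.toHomeomorph.toMeasurableEquiv) volume volume :=
  (volume_preserving_finTwoArrow ℝ).comp (PiLp.volume_preserving_ofLp (Fin 2))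

lemma vol_phi (S : Set (EuclideanSpace ℝ (Fin 2))) : volume (phi '' S) = volume S := by
  have h := phi_mp.measure_preimage_equiv (phi '' S)
  rw [← h]
  congr 1
  exact (Set.preimage_image_eq S phi.injective)

lemma interior_phi (S : Set (EuclideanSpace ℝ (Fin 2))) :
    interior (phi '' S) = phi '' interior S :=
  (phi.toHomeomorph.image_interior S).symm

lemma image_phi_translate (S : Set (EuclideanSpace ℝ (Fin 2))) (t : EuclideanSpace ℝ (Fin 2)) :
    phi '' ((fun x => x + t) '' S) = (fun x => x + phi t) '' (phi '' S) := by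
  rw [Set.image_image, Set.image_image]
  refine Set.image_congr fun x _ => ?_
  rw [map_add]

lemma disjoint_iff (S : Set (EuclideanSpace ℝ (Fin 2))) (s t : EuclideanSpace ℝ (Fin 2)) :
    Disjoint (interior ((fun x => x + phi s) '' (phi '' S)))
      (interior ((fun x => x + phi t) '' (phi '' S))) ↔
    Disjoint (interior ((fun x => x + s) '' S)) (interior ((fun x => x + t) '' S)) := by
  rw [← image_phi_translate, ← image_phi_translate, interior_phi, interior_phi,
    Set.disjoint_image_iff phi.injective]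

/-- double counting with a general window -/
lemma count_window (e w : ℝ × ℝ) (N M : ℝ) (T' : Finset (ℝ × ℝ)) (W : Set (ℝ × ℝ))
    (hW : MeasurableSet W)
    (hcount : ∀ z : ℝ × ℝ, ∀ T'' : Finset (ℝ × ℝ), T'' ⊆ T' → (∀ t ∈ T'', z ∈ St e w N t) →
      (T''.card : ℝ) ≤ M)
    (hsub : ∀ t ∈ T', St e w N t ⊆ W) :
    (T'.card : ENNReal) * (ENNReal.ofReal |e.1 * w.2 - e.2 * w.1| *
      (ENNReal.ofReal N * ENNReal.ofReal N)) ≤ ENNReal.ofReal M * volume W := by
  classical
  have e1 : (T'.card : ENNReal) * (ENNReal.ofReal |e.1 * w.2 - e.2 * w.1| *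
      (ENNReal.ofReal N * ENNReal.ofReal N)) =
      ∫⁻ z, ∑ t ∈ T', (St e w N t).indicator (fun _ => (1 : ENNReal)) z := by
    rw [lintegral_finsetSum _ fun t _ => measurable_const.indicator (measurableSet_St e w N t)]
    simp only [lintegral_indicator_const (measurableSet_St e w N _), volume_St, one_mul]
    rw [Finset.sum_const, nsmul_eq_mul]
  rw [e1, ← lintegral_indicator_const hW]
  refine lintegral_mono fun z => ?_
  by_cases hz : z ∈ W
  · rw [Set.indicator_of_mem hz]
    have e2 : ∑ t ∈ T', (St e w N t).indicator (fun _ => (1 : ENNReal)) z =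
        ((T'.filter fun t => z ∈ St e w N t).card : ENNReal) := by
      rw [Finset.card_filter]
      push_cast
      refine Finset.sum_congr rfl fun t _ => ?_
      rw [Set.indicator_apply]
    rw [e2, ← ENNReal.ofReal_natCast]
    apply ENNReal.ofReal_le_ofReal
    exact hcount z _ (Finset.filter_subset _ _) (fun t ht => (Finset.mem_filter.1 ht).2)
  · rw [Set.indicator_of_notMem hz]
    rw [nonpos_iff_eq_zero]
    refine Finset.sum_eq_zero fun t ht => ?_
    rw [Set.indicator_of_notMem]
    intro h
    exact hz (hsub t ht h)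

lemma volume_disc (R : ℝ) (hR : 0 ≤ R) :
    volume (Metric.closedBall (0 : EuclideanSpace ℝ (Fin 2)) R) =
      ENNReal.ofReal (Real.pi * R ^ 2) := by
  rw [EuclideanSpace.volume_closedBall_fin_two]
  rw [mul_comm, ENNReal.ofReal_mul Real.pi_pos.le, ENNReal.ofReal_pow hR]

end Pool.Agent.H99.RogIns
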