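import Pool.Agent.H99.RogIns.Plane

/-!
# The upper bound for the density with respect to discs
-/

set_option autoImplicit false
open MeasureTheory
open Pool.Agent.H27.Rog

namespace Pool.Agent.H99.RogIns

universe u

theorem upper (D : Set (EuclideanSpace ℝ (Fin 2))) (hD : IsCompact D)
    (hDint : (interior D).Nonempty) (e w : ℝ × ℝ) (Δ c : ℝ)
    (hdet : e.1 * w.2 - e.2 * w.1 ≠ 0) (hΔ : 0 < Δ) (hc : 0 ≤ c)
    (hloc : ∀ T : Set (ℝ × ℝ), (∀ s ∈ T, ∀ t ∈ T, s ≠ t →
        Disjoint (interior ((fun x => x + s) '' (phi '' D)))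
          (interior ((fun x => x + t) '' (phi '' D)))) →
        ∀ (N : ℝ), 0 < N → ∀ z : ℝ × ℝ, ∀ T' : Finset (ℝ × ℝ),
          (∀ t ∈ T', t ∈ T ∧ ∃ x ∈ Set.Icc (0 : ℝ) N, ∃ y ∈ Set.Icc (0 : ℝ) N,
            t = z + x • e + y • w) →
          (T'.card : ℝ) * Δ ≤ (N + c) * (N + 1))
    {ι : Type u} (t : ι → EuclideanSpace ℝ (Fin 2))
    (ht : ∀ i j : ι, i ≠ j → Disjoint (interior ((fun x => x + t i) '' D))
      (interior ((fun x => x + t j) '' D))) :
    Filter.limsup (fun r : ℝ =>
      (∑' i : {i : ι // (fun x => x + t i) '' D ⊆ Metric.closedBall 0 r},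
        volume ((fun x => x + t i) '' D)) / ENNReal.ofReal (Real.pi * r ^ 2)) Filter.atTop ≤
      volume D / ENNReal.ofReal (Δ * |e.1 * w.2 - e.2 * w.1|) := by
  classical
  set δ := |e.1 * w.2 - e.2 * w.1| with hδ
  have hδ0 : 0 < δ := abs_pos.2 hdet
  set κ := ‖phi.symm e‖ + ‖phi.symm w‖ with hκ
  have hκ0 : 0 ≤ κ := by rw [hκ]; positivity
  obtain ⟨x₀, hx₀⟩ := hDint
  have hx₀D : x₀ ∈ D := interior_subset hx₀
  obtain ⟨ρ, hρ⟩ := hD.isBounded.exists_norm_le
  have hρ0 : 0 ≤ ρ := (norm_nonneg _).trans (hρ x₀ hx₀D)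
  have hpi := Real.pi_pos
  -- the translation vectors are distinct
  have hinj : Function.Injective t := by
    intro i j hij
    by_contra hne
    have h1 := ht i j hne
    rw [hij, Set.disjoint_left] at h1
    have h2 : x₀ + t j ∈ interior ((fun x => x + t j) '' D) := by
      have h3 : (fun x => x + t j) '' interior D ⊆ interior ((fun x => x + t j) '' D) := by
        apply interior_maximal (Set.image_mono interior_subset)
        exact (Homeomorph.addRight (t j)).isOpenMap _ isOpen_interior
      exact h3 ⟨x₀, hx₀, rfl⟩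
    exact h1 h2 h2
  -- the bound
  set g : ℝ → ℝ := fun r => (Real.sqrt r + c) * (Real.sqrt r + 1) / Δ *
    (Real.pi * (r + ρ + Real.sqrt r * κ) ^ 2) / (δ * Real.sqrt r ^ 2) / (Real.pi * r ^ 2) with hg
  have hbound : ∀ r : ℝ, 0 < r →
      (∑' i : {i : ι // (fun x => x + t i) '' D ⊆ Metric.closedBall 0 r},
        volume ((fun x => x + t i) '' D)) / ENNReal.ofReal (Real.pi * r ^ 2) ≤
      volume D * ENNReal.ofReal (g r) := by
    intro r hr
    have hs : 0 < Real.sqrt r := Real.sqrt_pos.2 hr
    set s := Real.sqrt r with hsdef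
    set B := (s + c) * (s + 1) / Δ * (Real.pi * (r + ρ + s * κ) ^ 2) / (δ * s ^ 2) with hB
    have hcard : ∀ F : Finset {i : ι // (fun x => x + t i) '' D ⊆ Metric.closedBall 0 r},
        (F.card : ℝ) ≤ B := by
      intro F
      set T' : Finset (ℝ × ℝ) := F.image (fun i => phi (t i.1)) with hT'
      have hTc : T'.card = F.card := by
        rw [hT']
        apply Finset.card_image_of_injective
        intro i j hij
        exact Subtype.ext (hinj (phi.injective hij))
      have hM : 0 ≤ (s + c) * (s + 1) / Δ := by positivity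
      have key := count_window e w s ((s + c) * (s + 1) / Δ) T'
        (phi '' Metric.closedBall 0 (r + ρ + s * κ))
        ((isCompact_closedBall _ _).image phi.continuous).measurableSet
        (by
          intro z T'' hsubT hz
          have h1 := hloc (Set.range fun i => phi (t i)) (by
            rintro _ ⟨i, rfl⟩ _ ⟨j, rfl⟩ hne
            rw [disjoint_iff]
            exact ht i j (fun h => hne (by rw [h]))) s hs z T'' (fun q hq => by
              refine ⟨?_, mem_St.1 (hz q hq)⟩
              obtain ⟨i, _, rfl⟩ := Finset.mem_image.1 (hsubT hq)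
              exact ⟨i.1, rfl⟩)
          rw [le_div_iff₀ hΔ]
          exact h1)
        (by
          intro q hq z hz
          obtain ⟨i, _, rfl⟩ := Finset.mem_image.1 hq
          obtain ⟨x, hx, y, hy, h⟩ := mem_St.1 hz
          refine ⟨t i.1 - x • phi.symm e - y • phi.symm w, ?_, ?_⟩
          · rw [mem_closedBall_zero_iff]
            have h1 : ‖t i.1‖ ≤ r + ρ := by
              have h2 : x₀ + t i.1 ∈ Metric.closedBall (0 : EuclideanSpace ℝ (Fin 2)) r :=
                i.2 ⟨x₀, hx₀D, rfl⟩
              rw [mem_closedBall_zero_iff] at h2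
              have h3 := norm_sub_le (x₀ + t i.1) x₀
              rw [add_sub_cancel_left] at h3
              linarith [hρ x₀ hx₀D]
            have h4 : ‖x • phi.symm e‖ ≤ s * ‖phi.symm e‖ := by
              rw [norm_smul, Real.norm_of_nonneg hx.1]
              exact mul_le_mul_of_nonneg_right hx.2 (norm_nonneg _)
            have h5 : ‖y • phi.symm w‖ ≤ s * ‖phi.symm w‖ := by
              rw [norm_smul, Real.norm_of_nonneg hy.1]
              exact mul_le_mul_of_nonneg_right hy.2 (norm_nonneg _)
            have h6 := norm_sub_le (t i.1 - x • phi.symm e) (y • phi.symm w)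
            have h7 := norm_sub_le (t i.1) (x • phi.symm e)
            rw [hκ]
            linarith
          · rw [map_sub, map_sub, map_smul, map_smul, phi.apply_symm_apply, phi.apply_symm_apply, h]
            abel)
      rw [vol_phi, volume_disc _ (by positivity), hTc, ← hδ] at key
      have hx : (F.card : ENNReal) * (ENNReal.ofReal δ * (ENNReal.ofReal s * ENNReal.ofReal s)) =
          ENNReal.ofReal ((F.card : ℝ) * (δ * s ^ 2)) := by
        rw [ENNReal.ofReal_mul (by positivity), ENNReal.ofReal_mul (by positivity), sq,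
          ENNReal.ofReal_mul hs.le, ENNReal.ofReal_natCast]
      rw [hx, ← ENNReal.ofReal_mul hM] at key
      have key2 := (ENNReal.ofReal_le_ofReal_iff (by positivity)).1 key
      rw [hB, le_div_iff₀ (by positivity)]
      exact key2
    have hvol : ∀ q : EuclideanSpace ℝ (Fin 2), volume ((fun x => x + q) '' D) = volume D := by
      intro q
      rw [Set.image_add_right, measure_preimage_add_right]
    have hsum : (∑' i : {i : ι // (fun x => x + t i) '' D ⊆ Metric.closedBall 0 r},
        volume ((fun x => x + t i) '' D)) ≤ ENNReal.ofReal B * volume D := by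
      rw [ENNReal.tsum_eq_iSup_sum]
      refine iSup_le fun F => ?_
      simp only [hvol]
      rw [Finset.sum_const, nsmul_eq_mul]
      refine mul_le_mul_left ?_ _
      rw [← ENNReal.ofReal_natCast]
      exact ENNReal.ofReal_le_ofReal (hcard F)
    calc _ ≤ (ENNReal.ofReal B * volume D) / ENNReal.ofReal (Real.pi * r ^ 2) :=
          ENNReal.div_le_div_right hsum _
      _ = volume D * ENNReal.ofReal (g r) := by
          have h1 : g r = B / (Real.pi * r ^ 2) := rfl
          rw [h1, ENNReal.ofReal_div_of_pos (x := B) (y := Real.pi * r ^ 2) (by positivity),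
            mul_comm (ENNReal.ofReal B), mul_div_assoc]
  -- the limit of the bound
  have hglim : Filter.Tendsto g Filter.atTop (nhds (1 / (Δ * δ))) := by
    have hsq : Filter.Tendsto Real.sqrt Filter.atTop Filter.atTop := Real.tendsto_sqrt_atTop
    have hinv : Filter.Tendsto (fun R => (Real.sqrt R)⁻¹) Filter.atTop (nhds 0) :=
      tendsto_inv_atTop_zero.comp hsq
    have h1 : Filter.Tendsto (fun R => (1 + c * (Real.sqrt R)⁻¹) * (1 + (Real.sqrt R)⁻¹) / Δ *
        (1 + ρ * ((Real.sqrt R)⁻¹ * (Real.sqrt R)⁻¹) + (Real.sqrt R)⁻¹ * κ) ^ 2 / δ) Filter.atTop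
        (nhds ((1 + c * 0) * (1 + 0) / Δ * (1 + ρ * (0 * 0) + 0 * κ) ^ 2 / δ)) := by
      refine Filter.Tendsto.div_const (Filter.Tendsto.mul (Filter.Tendsto.div_const
        (Filter.Tendsto.mul (tendsto_const_nhds.add (tendsto_const_nhds.mul hinv))
          (tendsto_const_nhds.add hinv)) _) (Filter.Tendsto.pow ?_ 2)) _
      exact (tendsto_const_nhds.add (tendsto_const_nhds.mul (hinv.mul hinv))).add
        (hinv.mul tendsto_const_nhds)
    have h2 : (1 + c * 0) * (1 + 0) / Δ * (1 + ρ * (0 * 0) + 0 * κ) ^ 2 / δ = 1 / (Δ * δ) := by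
      field_simp
      ring
    rw [h2] at h1
    refine h1.congr' ?_
    filter_upwards [Filter.eventually_gt_atTop (0 : ℝ)] with R hR
    have hs : 0 < Real.sqrt R := Real.sqrt_pos.2 hR
    have hRs : R = Real.sqrt R ^ 2 := (Real.sq_sqrt hR.le).symm
    rw [hg]
    simp only
    generalize Real.sqrt R = s at hs hRs ⊢
    subst hRs
    field_simp
  have hlim : Filter.Tendsto (fun R => volume D * ENNReal.ofReal (g R)) Filter.atTop
      (nhds (volume D / ENNReal.ofReal (Δ * δ))) := by
    have h1 : volume D / ENNReal.ofReal (Δ * δ) = volume D * ENNReal.ofReal (1 / (Δ * δ)) := by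
      rw [ENNReal.ofReal_div_of_pos (by positivity), ENNReal.ofReal_one, one_div, div_eq_mul_inv]
    rw [h1]
    refine ENNReal.Tendsto.const_mul (ENNReal.tendsto_ofReal hglim) (Or.inr ?_)
    exact hD.measure_lt_top.ne
  rw [← hlim.limsup_eq]
  refine Filter.limsup_le_limsup ?_
  filter_upwards [Filter.eventually_gt_atTop (0 : ℝ)] with R hR
  exact hbound R hR

end Pool.Agent.H99.RogIns
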